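import Pool.Agent.H24.SCG.Base

/-!
# Project SCG, module ODC: subgroups of `SL(2,F)` without `-1`
-/

set_option autoImplicit false

namespace Pool.Agent.H58.SCG

open Matrix OnePoint Pool.SCG

/-- `-1` is the only involution. -/
lemma invol_eq {F : Type} [Field F] (h2 : (2 : F) ≠ 0) (x : SpecialLinearGroup (Fin 2) F)
    (hx : x * x = 1) (hx1 : x ≠ 1) : x = -1 := by
  have e : ∀ i j, (x : Matrix (Fin 2) (Fin 2) F) i 0 * (x : Matrix (Fin 2) (Fin 2) F) 0 j +
      (x : Matrix (Fin 2) (Fin 2) F) i 1 * (x : Matrix (Fin 2) (Fin 2) F) 1 j =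
      (1 : Matrix (Fin 2) (Fin 2) F) i j := by
    intro i j
    have h1 : (x : Matrix (Fin 2) (Fin 2) F) * (x : Matrix (Fin 2) (Fin 2) F) = 1 :=
      congrArg Subtype.val hx
    have h2 := congrFun (congrFun h1 i) j
    rw [Matrix.mul_apply, Fin.sum_univ_two] at h2
    exact h2
  have e00 := e 0 0
  have e01 := e 0 1
  have e10 := e 1 0
  have e11 := e 1 1
  rw [Matrix.one_apply_eq] at e00 e11
  rw [Matrix.one_apply_ne (by decide)] at e01 e10
  have hd := x.det_coe
  rw [Matrix.det_fin_two] at hd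
  obtain ⟨a, ha⟩ : ∃ a : F, a = (x : Matrix (Fin 2) (Fin 2) F) 0 0 := ⟨_, rfl⟩
  obtain ⟨b, hb⟩ : ∃ b : F, b = (x : Matrix (Fin 2) (Fin 2) F) 0 1 := ⟨_, rfl⟩
  obtain ⟨c, hc⟩ : ∃ c : F, c = (x : Matrix (Fin 2) (Fin 2) F) 1 0 := ⟨_, rfl⟩
  obtain ⟨d, hd'⟩ : ∃ d : F, d = (x : Matrix (Fin 2) (Fin 2) F) 1 1 := ⟨_, rfl⟩
  rw [← ha, ← hb, ← hc] at e00
  rw [← ha, ← hb, ← hd'] at e01
  rw [← ha, ← hc, ← hd'] at e10
  rw [← hb, ← hc, ← hd'] at e11
  rw [← ha, ← hb, ← hc, ← hd'] at hd
  have h3 : a * (a + d) = 2 := by linear_combination e00 + hd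
  have h4 : a + d ≠ 0 := by
    intro h
    rw [h, mul_zero] at h3
    exact h2 h3.symm
  have hb0 : b = 0 := by
    have : b * (a + d) = 0 := by linear_combination e01
    exact (mul_eq_zero.1 this).resolve_right h4
  have hc0 : c = 0 := by
    have : c * (a + d) = 0 := by linear_combination e10
    exact (mul_eq_zero.1 this).resolve_right h4
  rw [hb0] at e00 hd
  have ha2 : (a - 1) * (a + 1) = 0 := by linear_combination e00
  have had : a * d = 1 := by linear_combination hd
  rcases mul_eq_zero.1 ha2 with h5 | h5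
  · exfalso
    have ha1 : a = 1 := by linear_combination h5
    have hd1 : d = 1 := by rw [ha1, one_mul] at had; exact had
    apply hx1
    ext i j
    fin_cases i <;> fin_cases j
    · show (x : Matrix (Fin 2) (Fin 2) F) 0 0 = (1 : Matrix (Fin 2) (Fin 2) F) 0 0
      rw [← ha, ha1, Matrix.one_apply_eq]
    · show (x : Matrix (Fin 2) (Fin 2) F) 0 1 = (1 : Matrix (Fin 2) (Fin 2) F) 0 1
      rw [← hb, hb0, Matrix.one_apply_ne (by decide)]
    · show (x : Matrix (Fin 2) (Fin 2) F) 1 0 = (1 : Matrix (Fin 2) (Fin 2) F) 1 0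
      rw [← hc, hc0, Matrix.one_apply_ne (by decide)]
    · show (x : Matrix (Fin 2) (Fin 2) F) 1 1 = (1 : Matrix (Fin 2) (Fin 2) F) 1 1
      rw [← hd', hd1, Matrix.one_apply_eq]
  · have ha1 : a = -1 := by linear_combination h5
    have hd1 : d = -1 := by
      rw [ha1] at had
      linear_combination -had
    ext i j
    rw [SpecialLinearGroup.coe_neg, Matrix.neg_apply]
    fin_cases i <;> fin_cases j
    · show (x : Matrix (Fin 2) (Fin 2) F) 0 0 = -(1 : Matrix (Fin 2) (Fin 2) F) 0 0
      rw [← ha, ha1, Matrix.one_apply_eq]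
    · show (x : Matrix (Fin 2) (Fin 2) F) 0 1 = -(1 : Matrix (Fin 2) (Fin 2) F) 0 1
      rw [← hb, hb0, Matrix.one_apply_ne (by decide), neg_zero]
    · show (x : Matrix (Fin 2) (Fin 2) F) 1 0 = -(1 : Matrix (Fin 2) (Fin 2) F) 1 0
      rw [← hc, hc0, Matrix.one_apply_ne (by decide), neg_zero]
    · show (x : Matrix (Fin 2) (Fin 2) F) 1 1 = -(1 : Matrix (Fin 2) (Fin 2) F) 1 1
      rw [← hd', hd1, Matrix.one_apply_eq]

theorem odc_thm (hZAX : ZAXStmt) (hZODD : ZODDStmt) : ODCStmt := by
  classical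
  intro F _ _ h2 K hK
  have hodd : Odd (Nat.card K) := by
    by_contra hcon
    rw [Nat.not_odd_iff_even, even_iff_two_dvd] at hcon
    have : Fact (Nat.Prime 2) := ⟨Nat.prime_two⟩
    obtain ⟨x, hx⟩ := exists_prime_orderOf_dvd_card' 2 hcon
    have h3 : x * x = 1 := by
      have h := pow_orderOf_eq_one x
      rw [hx, pow_two] at h
      exact h
    have h4 : x ≠ 1 := by
      intro h
      rw [h, orderOf_one] at hx
      omega
    have h5 := invol_eq h2 (x : SpecialLinearGroup (Fin 2) F) (congrArg Subtype.val h3)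
      (fun h => h4 (Subtype.ext h))
    apply hK
    rw [← h5]
    exact x.2
  let ι : SpecialLinearGroup (Fin 2) F →* GL (Fin 2) F := SpecialLinearGroup.toGL
  have hmap : (K.map ι).map (act F) = K.map ((act F).comp ι) := Subgroup.map_map _ _ _
  have hsurj := ((act F).comp ι).subgroupMap_surjective K
  have hfin : Finite ↥((K.map ι).map (act F)) := by
    rw [hmap]
    exact Finite.of_surjective _ hsurj
  have hZ := hZAX F h2 (K.map ι)
  have hcard : Odd (Nat.card ↥((K.map ι).map (act F))) := by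
    rw [hmap]
    exact hodd.of_dvd_nat (Subgroup.card_dvd_of_surjective _ hsurj)
  obtain ⟨x, hx⟩ := hZODD _ _ hZ hcard
  have key : ∀ k ∈ K, (GeneralLinearGroup.map (algebraMap F (AlgebraicClosure F)) (ι k)) • x = x := by
    intro k hk
    exact hx ⟨act F (ι k), ⟨ι k, ⟨k, hk, rfl⟩, rfl⟩⟩
  induction x using OnePoint.rec with
  | infty =>
    refine ⟨![1, 0], ?_, ?_⟩
    · intro h
      have := congrFun h 0
      simp at this
    · intro k hk
      have h3 := smul_infty_eq_self_iff.1 (key k hk)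
      refine ⟨((k : Matrix (Fin 2) (Fin 2) F).map (algebraMap F (AlgebraicClosure F))) 0 0, ?_⟩
      have h4 : ((k : Matrix (Fin 2) (Fin 2) F).map (algebraMap F (AlgebraicClosure F))) 1 0 = 0 := h3
      ext i
      fin_cases i
      · simp [Matrix.mulVec, dotProduct, Fin.sum_univ_two]
      · simpa [Matrix.mulVec, dotProduct, Fin.sum_univ_two] using h4
  | coe c =>
    refine ⟨![c, 1], ?_, ?_⟩
    · intro h
      have := congrFun h 1
      simp at this
    · intro k hk
      have h3 := key k hk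
      rw [smul_some_eq_ite] at h3
      obtain ⟨M, hM⟩ : ∃ M : Matrix (Fin 2) (Fin 2) (AlgebraicClosure F),
        M = (k : Matrix (Fin 2) (Fin 2) F).map (algebraMap F (AlgebraicClosure F)) := ⟨_, rfl⟩
      have h4 : (if M 1 0 * c + M 1 1 = 0 then (∞ : OnePoint (AlgebraicClosure F)) else
          (((M 0 0 * c + M 0 1) / (M 1 0 * c + M 1 1) : AlgebraicClosure F) :
            OnePoint (AlgebraicClosure F))) = (c : OnePoint (AlgebraicClosure F)) := by
        rw [hM]
        exact h3
      split_ifs at h4 with h5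
      · exact absurd h4 (OnePoint.infty_ne_coe c)
      · have h6 := OnePoint.coe_injective h4
        rw [div_eq_iff h5] at h6
        refine ⟨M 1 0 * c + M 1 1, ?_⟩
        rw [← hM]
        ext i
        fin_cases i
        · simp only [Matrix.mulVec, dotProduct, Fin.sum_univ_two]
          simp only [Pi.smul_apply, smul_eq_mul]
          show M 0 0 * c + M 0 1 * 1 = (M 1 0 * c + M 1 1) * c
          linear_combination h6
        · simp only [Matrix.mulVec, dotProduct, Fin.sum_univ_two]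
          simp only [Pi.smul_apply, smul_eq_mul]
          show M 1 0 * c + M 1 1 * 1 = (M 1 0 * c + M 1 1) * 1
          ring

end Pool.Agent.H58.SCG
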